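import Pool.Agent.J6H55.FM.Stm

/-! # FM-CHV: theorem of Chevalley for complex solution sets (helper85 for helper55) -/

set_option autoImplicit false
set_option linter.overlappingInstances false

namespace Pool.Agent.J6H85.FM

open PrimeSpectrum

lemma mem_pt {τ : Type} (c : τ → ℂ) (x : MvPolynomial τ ℂ) :
    x ∈ (MvPolynomial.pointToPoint (k := ℂ) c).asIdeal ↔ MvPolynomial.eval c x = 0 := by
  show x ∈ MvPolynomial.vanishingIdeal ℂ {c} ↔ _
  rw [MvPolynomial.mem_vanishingIdeal_singleton_iff, MvPolynomial.aeval_eq_eval]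

theorem chv : Pool.Agent.J6H55.FM.S_chv := by
  classical
  intro β σ _ _ S Ψ p _ hden
  obtain ⟨f, hf⟩ : ∃ f : MvPolynomial β ℂ →+* MvPolynomial (β ⊕ σ) ℂ,
    f = (MvPolynomial.rename (R := ℂ) (Sum.inl : β → β ⊕ σ)).toRingHom := ⟨_, rfl⟩
  have hfx : ∀ x, f x = MvPolynomial.rename Sum.inl x := by
    intro x
    rw [hf]
    rfl
  have hfp : f.FinitePresentation := by
    rw [← RingHom.FinitePresentation.of_finiteType]
    apply RingHom.FiniteType.of_comp_finiteType (f := (MvPolynomial.C : ℂ →+* MvPolynomial β ℂ))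
    have h1 : f.comp MvPolynomial.C = (algebraMap ℂ (MvPolynomial (β ⊕ σ) ℂ)) := by
      ext x
      rw [RingHom.comp_apply, hfx, MvPolynomial.rename_C]
      rfl
    rw [h1]
    rw [RingHom.finiteType_algebraMap]
    infer_instance
  -- the constructible set upstairs
  obtain ⟨t, ht⟩ : (Ideal.span S).FG := IsNoetherian.noetherian _
  obtain ⟨s, hs⟩ : ∃ s : Set (PrimeSpectrum (MvPolynomial (β ⊕ σ) ℂ)),
    s = (zeroLocus (t : Set (MvPolynomial (β ⊕ σ) ℂ))) \ zeroLocus {Ψ} := ⟨_, rfl⟩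
  have hsm : ∀ q, q ∈ s ↔ S ⊆ q.asIdeal ∧ Ψ ∉ q.asIdeal := by
    intro q
    rw [hs, Set.mem_sdiff, mem_zeroLocus, mem_zeroLocus, Set.singleton_subset_iff]
    have h1 : (t : Set (MvPolynomial (β ⊕ σ) ℂ)) ⊆ q.asIdeal ↔ S ⊆ q.asIdeal := by
      rw [← Ideal.span_le, ← Ideal.span_le (s := S), ← ht]
    rw [h1]
    rfl
  have hsc : Topology.IsConstructible s := by
    rw [← exists_constructibleSetData_iff]
    refine ⟨{⟨Ψ, t.card, fun i => ((t.equivFin.symm i : t) : MvPolynomial (β ⊕ σ) ℂ)⟩}, ?_⟩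
    rw [ConstructibleSetData.toSet]
    simp only [Finset.mem_singleton, Set.iUnion_iUnion_eq_left, BasicConstructibleSetData.toSet]
    rw [hs]
    congr 2
    ext x
    constructor
    · rintro ⟨i, rfl⟩
      exact (t.equivFin.symm i).2
    · intro hx
      exact ⟨t.equivFin ⟨x, hx⟩, by simp⟩
  have hT := isConstructible_comap_image hfp hsc
  obtain ⟨D1, hD1⟩ := exists_constructibleSetData_iff.2 hT
  obtain ⟨D2, hD2⟩ := exists_constructibleSetData_iff.2 hT.compl
  -- solutions give points of the image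
  have hA : ∀ (c : β → ℂ) (a : σ → ℂ), (∀ Φ ∈ S, MvPolynomial.eval (Sum.elim c a) Φ = 0) →
      MvPolynomial.eval (Sum.elim c a) Ψ ≠ 0 →
      MvPolynomial.pointToPoint (k := ℂ) c ∈ comap f '' s := by
    intro c a h1 h2
    refine ⟨MvPolynomial.pointToPoint (k := ℂ) (Sum.elim c a), ?_, ?_⟩
    · rw [hsm]
      refine ⟨fun Φ hΦ => (mem_pt _ _).2 (h1 Φ hΦ), fun h => h2 ((mem_pt _ _).1 h)⟩
    · apply PrimeSpectrum.ext
      ext x
      rw [comap_asIdeal, Ideal.mem_comap, mem_pt, mem_pt, hfx, MvPolynomial.eval_rename]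
      rfl
  -- points of the image give solutions
  have hB : ∀ c : β → ℂ, MvPolynomial.pointToPoint (k := ℂ) c ∈ comap f '' s →
      ∃ a : σ → ℂ, (∀ Φ ∈ S, MvPolynomial.eval (Sum.elim c a) Φ = 0) ∧
        MvPolynomial.eval (Sum.elim c a) Ψ ≠ 0 := by
    rintro c ⟨q, hq, hqc⟩
    rw [hsm] at hq
    have hjac : q.asIdeal.jacobson = q.asIdeal := by
      rw [← Ideal.radical_eq_jacobson]
      exact q.isPrime.radical
    have h1 : Ψ ∉ q.asIdeal.jacobson := by
      rw [hjac]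
      exact hq.2
    rw [Ideal.jacobson, Ideal.mem_sInf] at h1
    push Not at h1
    obtain ⟨n, ⟨hn1, hn2⟩, hn3⟩ := h1
    obtain ⟨x, hx⟩ := MvPolynomial.isMaximal_iff_eq_vanishingIdeal_singleton.1 hn2
    have hmem : ∀ y, y ∈ n ↔ MvPolynomial.eval x y = 0 := by
      intro y
      rw [hx, MvPolynomial.mem_vanishingIdeal_singleton_iff, MvPolynomial.aeval_eq_eval]
    have hxc : ∀ i, x (Sum.inl i) = c i := by
      intro i
      have h2 : (MvPolynomial.X i - MvPolynomial.C (c i) : MvPolynomial β ℂ) ∈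
          (MvPolynomial.pointToPoint (k := ℂ) c).asIdeal := by
        rw [mem_pt]
        simp
      rw [← hqc, comap_asIdeal, Ideal.mem_comap] at h2
      have h3 := (hmem _).1 (hn1 h2)
      rw [hfx] at h3
      simp only [map_sub, MvPolynomial.rename_X, MvPolynomial.rename_C, MvPolynomial.eval_X,
        MvPolynomial.eval_C] at h3
      exact sub_eq_zero.1 h3
    have hxe : x = Sum.elim c (fun j => x (Sum.inr j)) := by
      funext i
      rcases i with i | j
      · exact hxc i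
      · rfl
    refine ⟨fun j => x (Sum.inr j), ?_, ?_⟩
    · intro Φ hΦ
      rw [← hxe]
      exact (hmem _).1 (hn1 (hq.1 hΦ))
    · rw [← hxe]
      exact fun h => hn3 ((hmem _).2 h)
  -- a piece of a constructible set
  have hpiece : ∀ (D : ConstructibleSetData (MvPolynomial β ℂ)) (Z : Set (PrimeSpectrum (MvPolynomial β ℂ))),
      D.toSet = Z → (⟨p, inferInstance⟩ : PrimeSpectrum (MvPolynomial β ℂ)) ∈ Z →
      ∃ r : MvPolynomial β ℂ, r ∉ p ∧ ∀ c : β → ℂ, (∀ H ∈ p, MvPolynomial.eval c H = 0) →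
      MvPolynomial.eval c r ≠ 0 → MvPolynomial.pointToPoint (k := ℂ) c ∈ Z := by
    intro D Z hD hp
    rw [← hD, ConstructibleSetData.toSet, Set.mem_iUnion₂] at hp
    obtain ⟨C, hC, h1, h2⟩ := hp
    refine ⟨C.f, ?_, ?_⟩
    · intro h
      apply h2
      rw [mem_zeroLocus, Set.singleton_subset_iff]
      exact h
    · intro c hc hr
      rw [← hD, ConstructibleSetData.toSet, Set.mem_iUnion₂]
      refine ⟨C, hC, ?_, ?_⟩
      · rw [mem_zeroLocus]
        intro x hx
        have h3 : x ∈ p := h1 hx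
        exact (mem_pt _ _).2 (hc x h3)
      · rw [mem_zeroLocus, Set.singleton_subset_iff]
        intro h
        exact hr ((mem_pt _ _).1 h)
  have hP : (⟨p, inferInstance⟩ : PrimeSpectrum (MvPolynomial β ℂ)) ∈ comap f '' s := by
    by_contra hcon
    obtain ⟨r, hr1, hr2⟩ := hpiece D2 _ hD2 hcon
    obtain ⟨c, hc1, hc2, a, ha1, ha2⟩ := hden r hr1
    exact hr2 c hc1 hc2 (hA c a ha1 ha2)
  obtain ⟨r, hr1, hr2⟩ := hpiece D1 _ hD1 hP
  exact ⟨r, hr1, fun c hc1 hc2 => hB c (hr2 c hc1 hc2)⟩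

end Pool.Agent.J6H85.FM
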